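import Pool.Agent.H620R2.Gauge.Dt
import Pool.Agent.H620R2.Gauge.Comb
import Pool.Agent.H620R2.Gauge2.Base

/-!
# A direct product theorem for decision trees and hidden windows

`K` disjoint blocks, each consisting of `2 ^ m` disjoint windows of `m` bits; a block is hit if all
bits of one of its windows are true. If a decision tree of depth at most `2 ^ m / 16` guesses
for each block whether it is hit (the tree for a block may look at the other blocks), then the
probability that all guesses are right is at most `(7 / 8) ^ K`.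
-/

set_option autoImplicit false

namespace Pool.Agent.H274R3.Dp

open Pool.Agent.NPC Pool.Agent.H620R2.Gauge Finset H568R2 Pool.Agent.H676 Function

section

variable {I : Type} [Fintype I] [DecidableEq I]

/-- the bits in `S` are taken from `a`, the others from `b` -/
def mx (S : Finset I) (a b : I → Bool) : I → Bool := fun i => if i ∈ S then a i else b i

omit [Fintype I] in
theorem mx_update {S : Finset I} {i : I} (hi : i ∈ S) (a b : I → Bool) (c : Bool) :
    mx S (update a i c) b = mx (S.erase i) a (update b i c) := by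
  funext j
  unfold mx
  by_cases hj : j = i
  · subst hj; simp [hi]
  · simp [hj]

theorem Ex_split {S : Finset I} {i : I} (hi : i ∈ S) (b : I → Bool) (F : (I → Bool) → ℝ) :
    Ex unif (fun a => F (mx S a b)) =
      (Ex unif (fun a => F (mx (S.erase i) a (update b i false))) +
        Ex unif (fun a => F (mx (S.erase i) a (update b i true)))) / 2 := by
  rw [Ex_resample unif_sum (fun a => F (mx S a b)) i]
  have h : ∀ ω : I → Bool, ∑ c : Bool, unif c * F (mx S (update ω i c) b) =
      1 / 2 * (F (mx (S.erase i) ω (update b i false)) +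
        F (mx (S.erase i) ω (update b i true))) := by
    intro ω
    rw [Fintype.sum_bool, mx_update hi, mx_update hi]
    unfold unif
    ring
  simp only [h]
  rw [Ex_smul, Ex_add]
  ring

/-- the probability of `true` for each bit -/
noncomputable def xr (S : Finset I) (b : I → Bool) : I → ℝ :=
  fun j => if j ∈ S then 1 / 2 else if b j = true then 1 else 0

omit [Fintype I] in
theorem xr_update {S : Finset I} {i : I} (b : I → Bool) (c : Bool) :
    xr (S.erase i) (update b i c) = update (xr S b) i (if c = true then 1 else 0) := by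
  funext j
  unfold xr
  by_cases hj : j = i
  · subst hj; simp
  · simp [hj]

omit [Fintype I] in
theorem xr_nonneg (S : Finset I) (b : I → Bool) (i : I) : 0 ≤ xr S b i := by
  unfold xr; split_ifs <;> norm_num

omit [Fintype I] in
theorem xr_le_one (S : Finset I) (b : I → Bool) (i : I) : xr S b i ≤ 1 := by
  unfold xr; split_ifs <;> norm_num

/-- the probability that all bits in `P` are true -/
noncomputable def ww (x : I → ℝ) (P : Finset I) : ℝ := ∏ i ∈ P, x i

omit [Fintype I] in
theorem ww_update_not {x : I → ℝ} {P : Finset I} {i : I} (hi : i ∉ P) (t : ℝ) :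
    ww (update x i t) P = ww x P := by
  unfold ww
  refine Finset.prod_congr rfl fun j hj => ?_
  rw [update_of_ne]
  rintro rfl
  exact hi hj

omit [Fintype I] in
theorem ww_update_mem {x : I → ℝ} {P : Finset I} {i : I} (hi : i ∈ P) (t : ℝ) :
    ww (update x i t) P = t * ∏ j ∈ P.erase i, x j := by
  unfold ww
  rw [← Finset.mul_prod_erase P _ hi, update_self]
  congr 1
  refine Finset.prod_congr rfl fun j hj => ?_
  rw [update_of_ne (Finset.ne_of_mem_erase hj)]

omit [Fintype I] in
theorem ww_mem {x : I → ℝ} {P : Finset I} {i : I} (hi : i ∈ P) :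
    ww x P = x i * ∏ j ∈ P.erase i, x j := by
  unfold ww
  rw [← Finset.mul_prod_erase P _ hi]

omit [Fintype I] [DecidableEq I] in
theorem ww_nonneg {x : I → ℝ} (hx : ∀ i, 0 ≤ x i) (P : Finset I) : 0 ≤ ww x P :=
  Finset.prod_nonneg fun i _ => hx i

omit [Fintype I] [DecidableEq I] in
theorem ww_le_one {x : I → ℝ} (hx : ∀ i, 0 ≤ x i) (hx1 : ∀ i, x i ≤ 1) (P : Finset I) :
    ww x P ≤ 1 := Finset.prod_le_one (fun i _ => hx i) fun i _ => hx1 i

variable {κ J : Type} [Fintype κ] [DecidableEq κ] [Fintype J] [DecidableEq J]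

/-- the probability of the guess `v k` for the block `k` -/
noncomputable def pk (W : κ → J → Finset I) (v : κ → Bool) (x : I → ℝ) (k : κ) : ℝ :=
  if v k = true then 1 - ∏ j, (1 - ww x (W k j)) else ∏ j, (1 - ww x (W k j))

/-- the weight of a window -/
noncomputable def hh (c w : ℝ) : ℝ := max (w - c) 0 + 2 * max (c - w) 0

/-- the weight of a block -/
noncomputable def fk (W : κ → J → Finset I) (c : ℝ) (x : I → ℝ) (k : κ) : ℝ :=
  3 / 4 + ∑ j, hh c (ww x (W k j))

theorem hh_avg {c w : ℝ} (hc : 0 ≤ c) (hw : 0 ≤ w) :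
    (hh c 0 + hh c (2 * w)) / 2 ≤ hh c w + 3 / 2 * c := by
  unfold hh
  have h1 : max (0 - c) 0 = 0 := max_eq_right (by linarith)
  have h2 : max (c - 0) 0 = c := by rw [sub_zero]; exact max_eq_left hc
  rw [h1, h2]
  rcases le_total (2 * w) c with h3 | h3
  · have e1 : max (2 * w - c) 0 = 0 := max_eq_right (by linarith)
    have e2 : max (c - 2 * w) 0 = c - 2 * w := max_eq_left (by linarith)
    have e3 : max (w - c) 0 = 0 := max_eq_right (by linarith)
    have e4 : max (c - w) 0 = c - w := max_eq_left (by linarith)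
    rw [e1, e2, e3, e4]
    linarith
  · have e1 : max (2 * w - c) 0 = 2 * w - c := max_eq_left (by linarith)
    have e2 : max (c - 2 * w) 0 = 0 := max_eq_right (by linarith)
    rw [e1, e2]
    have e3 : w - c ≤ max (w - c) 0 := le_max_left _ _
    have e4 : (0 : ℝ) ≤ max (w - c) 0 := le_max_right _ _
    have e5 : (0 : ℝ) ≤ max (c - w) 0 := le_max_right _ _
    linarith

theorem hh_nonneg (c w : ℝ) : 0 ≤ hh c w := by
  unfold hh
  have e4 : (0 : ℝ) ≤ max (w - c) 0 := le_max_right _ _
  have e5 : (0 : ℝ) ≤ max (c - w) 0 := le_max_right _ _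
  linarith

omit [Fintype I] [DecidableEq I] [Fintype κ] [DecidableEq κ] [DecidableEq J] in
theorem fk_pos (W : κ → J → Finset I) (c : ℝ) (x : I → ℝ) (k : κ) : 3 / 4 ≤ fk W c x k := by
  unfold fk
  have : 0 ≤ ∑ j, hh c (ww x (W k j)) := Finset.sum_nonneg fun j _ => hh_nonneg _ _
  linarith

theorem one_sub_sum_le {ι : Type} (s : Finset ι) (t : ι → ℝ) (h0 : ∀ j, 0 ≤ t j)
    (h1 : ∀ j, t j ≤ 1) : 1 - ∑ j ∈ s, t j ≤ ∏ j ∈ s, (1 - t j) := by
  classical
  induction s using Finset.induction_on with
  | empty => simp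
  | insert i s hi ih =>
    rw [Finset.sum_insert hi, Finset.prod_insert hi]
    have h2 : ∏ j ∈ s, (1 - t j) ≤ 1 := Finset.prod_le_one (fun j _ => by linarith [h1 j])
      fun j _ => by linarith [h0 j]
    nlinarith [h0 i, h1 i]

/-- an elementary estimate -/
theorem base_le {m : ℕ} (hm : 1 ≤ m) (hJ : Fintype.card J = 2 ^ m) {w : J → ℝ}
    (h0 : ∀ j, 0 ≤ w j) (h1 : ∀ j, w j ≤ 1) :
    ∏ j, (1 - w j) ≤ 3 / 4 + ∑ j, hh (1 / 2 ^ m) (w j) ∧
    1 - ∏ j, (1 - w j) ≤ 3 / 4 + ∑ j, hh (1 / 2 ^ m) (w j) := by
  set c : ℝ := 1 / 2 ^ m with hc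
  have hc0 : 0 < c := by positivity
  have hc2 : c ≤ 1 / 2 := by
    rw [hc]
    apply one_div_le_one_div_of_le (by norm_num)
    calc (2 : ℝ) = 2 ^ 1 := by norm_num
      _ ≤ 2 ^ m := pow_le_pow_right₀ (by norm_num) hm
  set e : ℝ := ∑ j, max (w j - c) 0 with he
  set r : ℝ := ∑ j, max (c - w j) 0 with hr
  have he0 : 0 ≤ e := Finset.sum_nonneg fun j _ => le_max_right _ _
  have hr0 : 0 ≤ r := Finset.sum_nonneg fun j _ => le_max_right _ _
  have hsum : ∑ j, hh c (w j) = e + 2 * r := by
    unfold hh
    rw [Finset.sum_add_distrib, ← Finset.mul_sum]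
  rw [hsum]
  have hP0 : 0 ≤ ∏ j, (1 - w j) := Finset.prod_nonneg fun j _ => by linarith [h1 j]
  have hP1 : ∏ j, (1 - w j) ≤ 1 := Finset.prod_le_one (fun j _ => by linarith [h1 j])
    fun j _ => by linarith [h0 j]
  constructor
  · rcases le_total (1 / 8) r with h2 | h2
    · linarith
    · have hw : ∑ j, w j = 1 + e - r := by
        have h3 : ∀ j, w j = c + max (w j - c) 0 - max (c - w j) 0 := by
          intro j
          rcases le_total (w j) c with h4 | h4
          · rw [max_eq_right (by linarith : w j - c ≤ 0), max_eq_left (by linarith : 0 ≤ c - w j)]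
            ring
          · rw [max_eq_left (by linarith : 0 ≤ w j - c), max_eq_right (by linarith : c - w j ≤ 0)]
            ring
        rw [Finset.sum_congr rfl fun j _ => h3 j, Finset.sum_sub_distrib, Finset.sum_add_distrib,
          Finset.sum_const, Finset.card_univ, hJ, nsmul_eq_mul]
        have h5 : ((2 ^ m : ℕ) : ℝ) * c = 1 := by
          rw [hc]; push_cast; field_simp
        rw [h5]
      have h6 : ∏ j, (1 - w j) ≤ Real.exp (-∑ j, w j) := by
        rw [← Finset.sum_neg_distrib, Real.exp_sum]
        refine Finset.prod_le_prod (fun j _ => by linarith [h1 j]) fun j _ => ?_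
        have := Real.add_one_le_exp (-w j)
        linarith
      have h7 : Real.exp (-∑ j, w j) ≤ Real.exp (-(7 / 8)) := by
        apply Real.exp_le_exp.2
        rw [hw]
        linarith
      have h8 : Real.exp (-(7 / 8)) ≤ 8 / 15 := by
        rw [Real.exp_neg]
        have h9 := Real.add_one_le_exp (7 / 8 : ℝ)
        rw [inv_eq_one_div, div_le_div_iff₀ (Real.exp_pos _) (by norm_num)]
        linarith
      linarith
  · rcases le_total (1 / 4) e with h2 | h2
    · linarith
    · have h3 : ∀ j, max (w j - c) 0 ≤ e := fun j =>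
        Finset.single_le_sum (f := fun j => max (w j - c) 0) (fun j _ => le_max_right _ _)
          (Finset.mem_univ j)
      have h4 : ∏ j : J, ((1 - c) * (1 - 2 * max (w j - c) 0)) ≤ ∏ j, (1 - w j) := by
        refine Finset.prod_le_prod (fun j _ => ?_) fun j _ => ?_
        · have := h3 j
          apply mul_nonneg <;> linarith
        · have h5 := h3 j
          have h6 : w j - c ≤ max (w j - c) 0 := le_max_left _ _
          have h7 : (0 : ℝ) ≤ max (w j - c) 0 := le_max_right _ _
          nlinarith
      rw [Finset.prod_mul_distrib, Finset.prod_const, Finset.card_univ, hJ] at h4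
      have h5 := one_sub_sum_le univ (fun j => 2 * max (w j - c) 0)
        (fun j => mul_nonneg (by norm_num) (le_max_right _ _)) (fun j => by
          have := h3 j
          linarith)
      rw [← Finset.mul_sum] at h5
      have h6 : (1 / 4 : ℝ) ≤ (1 - c) ^ 2 ^ m := by
        have h7 : (1 / 2 : ℝ) ≤ (1 - c) ^ 2 ^ (m - 1) := by
          have h8 := one_add_mul_le_pow (a := -c) (by linarith) (2 ^ (m - 1))
          have h9 : ((2 ^ (m - 1) : ℕ) : ℝ) * c = 1 / 2 := by
            rw [hc]
            push_cast
            have : (2 : ℝ) ^ m = 2 ^ (m - 1) * 2 := by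
              rw [← pow_succ]; congr 1; omega
            rw [this]
            field_simp
          have h10 : 1 + ((2 ^ (m - 1) : ℕ) : ℝ) * -c = 1 / 2 := by linarith
          rw [h10] at h8
          have h11 : (1 + -c) = 1 - c := by ring
          rwa [h11] at h8
        have h12 : (2 : ℕ) ^ m = 2 ^ (m - 1) + 2 ^ (m - 1) := by
          have : m = (m - 1) + 1 := by omega
          conv_lhs => rw [this]
          rw [pow_succ]; ring
        rw [h12, pow_add]
        nlinarith
      have h7 : (0 : ℝ) ≤ 1 - 2 * e := by linarith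
      have h8 : (1 / 4 : ℝ) * (1 - 2 * e) ≤ (1 - c) ^ 2 ^ m *
          ∏ j : J, (1 - 2 * max (w j - c) 0) := mul_le_mul h6 h5 h7 (by positivity)
      linarith

end

end Pool.Agent.H274R3.Dp
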