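import Pool.Agent.H620R2.Gauge2.Defs

/-!
# A bounded number of nondeterministic bits relative to an oracle
-/

set_option autoImplicit false

namespace Pool.Agent.H274R3.Dp

open Pool.Agent.NPC Pool.Agent.H620R2.Gauge

/-- Nondeterministic polynomial time relative to `A` with `g |x|` nondeterministic bits: `x` is in
`L` if and only if a verifier (polynomial time relative to `A`) accepts `x` for some choice of
`g |x|` bits. -/
def NPg (A : Oracle) (g : ℕ → ℕ) (L : Set (List Bool)) : Prop :=
  ∃ V : List Bool → List Bool, IsFP A V ∧ ∀ x : List Bool,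
    (x ∈ L ↔ ∃ w : List Bool, w.length = g x.length ∧ V (pairBits w x) = [true])

/-- The same with an advice of polynomial length, which depends on the length of `x`. -/
def NPgPoly (A : Oracle) (g : ℕ → ℕ) (L : Set (List Bool)) : Prop :=
  ∃ (V : List Bool → List Bool) (h : ℕ → List Bool) (b : Polynomial ℕ), IsFP A V ∧
    (∀ n, (h n).length ≤ b.eval n) ∧ ∀ x : List Bool,
      (x ∈ L ↔ ∃ w : List Bool, w.length = g x.length ∧
        V (pairBits w (pairBits (h x.length) x)) = [true])

/-- The numbers of nondeterministic bits in the chain: `log n`, `n`, `n ^ 2`, `n ^ 3` and so on. -/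
def cg : ℕ → ℕ → ℕ
  | 0, n => Nat.clog 2 n
  | k + 1, n => n ^ (k + 1)

end Pool.Agent.H274R3.Dp
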