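import Pool.Agent.H274R3.Dp.Null
import Pool.Agent.H274R3.ETH.SFinal

/-!
# The gauge thresholds for bounded nondeterminism
-/

set_option autoImplicit false

namespace Pool.Agent.H274R3.Dp

open Pool.Agent.NPC Pool.Agent.H620R2.Gauge Pool.Agent.H622R2 Filter
open Pool.Agent.H274R3.ETH

theorem cg_lt (k c : ℕ) : ∀ᶠ n : ℕ in atTop, cg k n + c * Nat.log 2 n ≤ cg (k + 1) n := by
  obtain ⟨u0, hu0⟩ := eventually_atTop.1 (Y_exp 1 (c + 2) 1)
  have hlog : Tendsto (fun n : ℕ => Nat.log 2 n) atTop atTop := by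
    rw [tendsto_atTop]
    intro b
    filter_upwards [eventually_ge_atTop (2 ^ b)] with n hn
    have h1 : n ≠ 0 := by
      have : 0 < 2 ^ b := by positivity
      omega
    exact (Nat.le_log_iff_pow_le (by norm_num) h1).2 hn
  filter_upwards [eventually_ge_atTop 2, hlog.eventually (eventually_ge_atTop u0)] with n h2 h3
  have h4 := hu0 _ h3
  set l : ℕ := Nat.log 2 n with hl
  have h5 : 2 ^ l ≤ n := Nat.pow_log_le_self 2 (by omega)
  have h6 : (c + 2) * (l + 1) ≤ n := by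
    have h7 : 8 * (1 * ((c + 2) * (l + 1)) ^ 1) = 8 * ((c + 2) * (l + 1)) := by ring
    rw [h7] at h4
    omega
  have hexp : (c + 2) * (l + 1) = c * l + 2 * l + c + 2 := by ring
  cases k with
  | zero =>
    show Nat.clog 2 n + c * l ≤ n ^ 1
    have h8 : Nat.clog 2 n ≤ l + 1 := by
      rw [Nat.clog_le_iff_le_pow (by norm_num)]
      exact (Nat.lt_pow_succ_log_self (by norm_num) n).le
    rw [pow_one]
    omega
  | succ k =>
    show n ^ (k + 1) + c * l ≤ n ^ (k + 1 + 1)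
    have h9 : 1 ≤ n ^ (k + 1) := Nat.one_le_pow _ _ (by omega)
    have h10 : n ^ (k + 1 + 1) = n ^ (k + 1) * n := pow_succ _ _
    have h11 : n ^ (k + 1) * (c * l + 2) ≤ n ^ (k + 1) * n := Nat.mul_le_mul_left _ (by omega)
    have h12 : c * l ≤ n ^ (k + 1) * (c * l) := Nat.le_mul_of_pos_left _ h9
    have h13 : n ^ (k + 1) * (c * l + 2) = n ^ (k + 1) * (c * l) + 2 * n ^ (k + 1) := by ring
    omega

theorem IsP.npg {A : Oracle} {L : Set (List Bool)} (h : IsP A L) (g : ℕ → ℕ) : NPg A g L := by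
  obtain ⟨V, hV, hL⟩ := h
  have h2 : Poly (fun z : List Bool => (unpair z).2) := Poly.snd poly_unpair
  refine ⟨fun z => V (unpair z).2, hV.precomp h2, fun x => ?_⟩
  simp only [unpair_pairBits]
  rw [hL x]
  constructor
  · intro h
    exact ⟨List.replicate (g x.length) true, List.length_replicate .., h⟩
  · rintro ⟨w, _, hw⟩
    exact hw

theorem NPg.poly {A : Oracle} {L : Set (List Bool)} {g : ℕ → ℕ} (h : NPg A g L) :
    NPgPoly A g L := by
  obtain ⟨V, hV, hL⟩ := h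
  have h2 : Poly (fun z : List Bool => pairBits (unpair z).1 (unpair (unpair z).2).2) :=
    poly_pairBits (Poly.fst poly_unpair) (Poly.snd (poly_unpair.comp (Poly.snd poly_unpair)))
  refine ⟨fun z => V (pairBits (unpair z).1 (unpair (unpair z).2).2), fun _ => [], 0,
    hV.precomp h2, fun n => by simp, fun x => ?_⟩
  simp only [unpair_pairBits]
  exact hL x

/-- a polynomial number of nondeterministic bits -/
theorem NPg.isNP {A : Oracle} {L : Set (List Bool)} {g : Polynomial ℕ}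
    (h : NPg A (fun n => g.eval n) L) : IsNP A L := by
  obtain ⟨V, hV, hL⟩ := h
  set t : List Bool → List Bool := fun s =>
    if (unpair (unpair s).1).1.length = g.eval (unpair (unpair s).1).2.length
      then (unpair s).2 else [false] with ht
  have htp : Poly t := by
    have h1 : Poly (fun s : List Bool => (unpair s).1) := Poly.fst poly_unpair
    refine Poly.ite (Poly.decide_eq (Poly.length (Poly.fst (poly_unpair.comp h1)))
      (UPoly.toPoly (UPoly.eval (UPoly.length (Poly.snd (poly_unpair.comp h1))) g)))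
      (Poly.snd poly_unpair) (NPC.Poly.const _)
  refine ⟨fun v => t (pairBits v (V v)), g, ?_, fun x => ?_⟩
  · exact (IsFP.of_poly htp).comp ((IsFP.of_poly Poly.id).pair hV)
  · rw [hL x]
    have key : ∀ w : List Bool, t (pairBits (pairBits w x) (V (pairBits w x))) = [true] ↔
        (w.length = g.eval x.length ∧ V (pairBits w x) = [true]) := by
      intro w
      simp only [ht, unpair_pairBits]
      split_ifs with h
      · exact ⟨fun h1 => ⟨h, h1⟩, fun h1 => h1.2⟩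
      · exact ⟨fun h1 => by simp at h1, fun h1 => absurd h1.1 h⟩
    constructor
    · rintro ⟨w, h1, h2⟩
      exact ⟨w, h1.le, (key w).2 ⟨h1, h2⟩⟩
    · rintro ⟨w, _, h⟩
      exact ⟨w, (key w).1 h⟩

theorem cg_eval (k : ℕ) : cg (k + 1) = fun n => (Polynomial.X ^ (k + 1) : Polynomial ℕ).eval n := by
  funext n
  simp [cg]

theorem small_all {A : Oracle} (hA : ∀ L, IsPSPACE A L → Reduces L {x | A x = true}) (k : ℕ)
    (L : Set (List Bool)) (hL : NPg A (cg (k + 1)) L) : NPg A (cg k) L := by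
  rw [cg_eval] at hL
  exact IsP.npg (isP_of_reduces (hA L hL.isNP.isPSPACE)) _

theorem mainG (f : ℕ → ℝ) :
    (∀ (g₁ g₂ : ℕ → ℕ) (b : Polynomial ℕ), (∀ n, g₂ n ≤ b.eval n) →
      (∀ c : ℕ, ∀ᶠ n : ℕ in atTop, g₁ n + c * Nat.log 2 n ≤ g₂ n) →
      ∀ O : Set Oracle, {A : Oracle | ∀ L, IsPSPACE A L → Reduces L {x | A x = true}} ⊆ O →
        O ⊆ {A : Oracle | ∀ L, NPg A g₂ L → NPgPoly A g₁ L} →
        (Null f O ↔
          ∀ ε : ℝ, 0 < ε → ∃ᶠ N : ℕ in atTop, f N ≤ 2 ^ (Real.logb 2 N) ^ ε)) ∧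
    (∀ O : Set Oracle, {A : Oracle | ∀ L, IsPSPACE A L → Reduces L {x | A x = true}} ⊆ O →
      O ⊆ {A : Oracle | ∃ k, ∀ L, NPg A (cg (k + 1)) L → NPgPoly A (cg k) L} →
      (Null f O ↔
        ∀ ε : ℝ, 0 < ε → ∃ᶠ N : ℕ in atTop, f N ≤ 2 ^ (Real.logb 2 N) ^ ε)) ∧
    (Null f {A : Oracle | ∃ k, ∀ L, NPg A (cg (k + 1)) L → NPg A (cg k) L} ↔
      ∀ ε : ℝ, 0 < ε → ∃ᶠ N : ℕ in atTop, f N ≤ 2 ^ (Real.logb 2 N) ^ ε) ∧
    (Null f {A : Oracle | ∀ k, ∀ L, NPg A (cg (k + 1)) L → NPg A (cg k) L} ↔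
      ∀ ε : ℝ, 0 < ε → ∃ᶠ N : ℕ in atTop, f N ≤ 2 ^ (Real.logb 2 N) ^ ε) := by
  have hnn : ∀ O : Set Oracle,
      {A : Oracle | ∀ L, IsPSPACE A L → Reduces L {x | A x = true}} ⊆ O → Null f O →
      ∀ ε : ℝ, 0 < ε → ∃ᶠ N : ℕ in atTop, f N ≤ 2 ^ (Real.logb 2 N) ^ ε := by
    intro O h1 hn
    by_contra hcon
    push Not at hcon
    obtain ⟨ε, hε, hcon⟩ := hcon
    exact not_null f ε hε hcon O (fun A hA => h1 hA) hn
  have key : ∀ O : Set Oracle,
      {A : Oracle | ∀ L, IsPSPACE A L → Reduces L {x | A x = true}} ⊆ O →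
      O ⊆ {A : Oracle | ∃ k, ∀ L, NPg A (cg (k + 1)) L → NPgPoly A (cg k) L} →
      (Null f O ↔
        ∀ ε : ℝ, 0 < ε → ∃ᶠ N : ℕ in atTop, f N ≤ 2 ^ (Real.logb 2 N) ^ ε) := by
    intro O h1 h2
    refine ⟨hnn O h1, fun hf => ?_⟩
    refine (null_iUnion (f := f) (fun k : ℕ =>
      {A : Oracle | ∀ L, NPg A (cg (k + 1)) L → NPgPoly A (cg k) L}) fun k => ?_).mono
      fun A hA => ?_
    · refine null_pair (cg k) (cg (k + 1)) (Polynomial.X ^ (k + 1)) (fun n => ?_)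
        (cg_lt k) hf _ fun A hA => hA
      rw [cg_eval]
    · obtain ⟨k, hk⟩ := h2 hA
      exact Set.mem_iUnion.2 ⟨k, hk⟩
  refine ⟨?_, key, key _ ?_ ?_, key _ ?_ ?_⟩
  · intro g₁ g₂ b hb hg O h1 h2
    exact ⟨hnn O h1, fun hf => null_pair g₁ g₂ b hb hg hf O fun A hA => h2 hA⟩
  · exact fun A hA => ⟨0, small_all hA 0⟩
  · rintro A ⟨k, hk⟩
    exact ⟨k, fun L hL => (hk L hL).poly⟩
  · exact fun A hA k => small_all hA k
  · exact fun A hA => ⟨0, fun L hL => (hA 0 L hL).poly⟩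

end Pool.Agent.H274R3.Dp
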