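import Pool.Agent.H274R3.Dp.Comb

/-!
# The direct product theorem
-/

set_option autoImplicit false

namespace Pool.Agent.H274R3.Dp

open Pool.Agent.NPC Pool.Agent.H620R2.Gauge Finset H568R2 Pool.Agent.H676 Function

section

variable {I : Type} [Fintype I] [DecidableEq I]
variable {κ J : Type} [Fintype κ] [DecidableEq κ] [Fintype J] [DecidableEq J]

/-- how a product over the blocks changes with one bit -/
theorem prod_change {W : κ → J → Finset I}
    (hd : ∀ k j k' j', (k, j) ≠ (k', j') → Disjoint (W k j) (W k' j'))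
    {i : I} {k0 : κ} {j0 : J} (hi : i ∈ W k0 j0) {k : κ} {j : J} (hne : (k, j) ≠ (k0, j0)) :
    i ∉ W k j := fun h => Finset.disjoint_left.1 (hd k j k0 j0 hne) h hi

omit [Fintype I] [DecidableEq κ] in
theorem pk_update_none {W : κ → J → Finset I} (v : κ → Bool) {x : I → ℝ} {i : I} (k : κ)
    (hi : ∀ j, i ∉ W k j) (t : ℝ) : pk W v (update x i t) k = pk W v x k := by
  unfold pk
  simp only [ww_update_not (hi _)]

omit [Fintype I] [DecidableEq κ] in
theorem fk_update_none {W : κ → J → Finset I} (c : ℝ) {x : I → ℝ} {i : I} (k : κ)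
    (hi : ∀ j, i ∉ W k j) (t : ℝ) : fk W c (update x i t) k = fk W c x k := by
  unfold fk
  simp only [ww_update_not (hi _)]

theorem pk_avg {W : κ → J → Finset I}
    (hd : ∀ k j k' j', (k, j) ≠ (k', j') → Disjoint (W k j) (W k' j')) (v : κ → Bool)
    {x : I → ℝ} {i : I} (hx : x i = 1 / 2) :
    ∏ k, pk W v x k =
      ((∏ k, pk W v (update x i 0) k) + ∏ k, pk W v (update x i 1) k) / 2 := by
  by_cases hex : ∃ k j, i ∈ W k j
  · obtain ⟨k0, j0, hi⟩ := hex
    have hother : ∀ t : ℝ, ∏ k ∈ univ.erase k0, pk W v (update x i t) k =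
        ∏ k ∈ univ.erase k0, pk W v x k := by
      intro t
      refine Finset.prod_congr rfl fun k hk => ?_
      apply pk_update_none
      intro j
      apply prod_change hd hi
      intro h
      exact Finset.ne_of_mem_erase hk (congrArg Prod.fst h)
    have hQ : ∀ t : ℝ, ∏ j, (1 - ww (update x i t) (W k0 j)) =
        (1 - t * ∏ l ∈ (W k0 j0).erase i, x l) *
          ∏ j ∈ univ.erase j0, (1 - ww x (W k0 j)) := by
      intro t
      rw [← Finset.mul_prod_erase univ _ (Finset.mem_univ j0), ww_update_mem hi]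
      congr 1
      refine Finset.prod_congr rfl fun j hj => ?_
      rw [ww_update_not]
      apply prod_change hd hi
      intro h
      exact Finset.ne_of_mem_erase hj (congrArg Prod.snd h)
    have hQ0 : ∏ j, (1 - ww x (W k0 j)) =
        (1 - 1 / 2 * ∏ l ∈ (W k0 j0).erase i, x l) *
          ∏ j ∈ univ.erase j0, (1 - ww x (W k0 j)) := by
      rw [← Finset.mul_prod_erase univ _ (Finset.mem_univ j0), ww_mem hi, hx]
    rw [← Finset.mul_prod_erase univ (pk W v x) (Finset.mem_univ k0),
      ← Finset.mul_prod_erase univ (pk W v (update x i 0)) (Finset.mem_univ k0),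
      ← Finset.mul_prod_erase univ (pk W v (update x i 1)) (Finset.mem_univ k0),
      hother, hother]
    have hk : pk W v x k0 = (pk W v (update x i 0) k0 + pk W v (update x i 1) k0) / 2 := by
      unfold pk
      rw [hQ, hQ, hQ0]
      split_ifs <;> ring
    rw [hk]
    ring
  · push Not at hex
    have h : ∀ t : ℝ, ∏ k, pk W v (update x i t) k = ∏ k, pk W v x k := fun t =>
      Finset.prod_congr rfl fun k _ => pk_update_none v k (hex k) t
    rw [h, h]
    ring

theorem fk_avg {W : κ → J → Finset I}
    (hd : ∀ k j k' j', (k, j) ≠ (k', j') → Disjoint (W k j) (W k' j')) {c : ℝ} (hc : 0 ≤ c)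
    {x : I → ℝ} (hx0 : ∀ i, 0 ≤ x i) {i : I} (hx : x i = 1 / 2) :
    ((∏ k, fk W c (update x i 0) k) + ∏ k, fk W c (update x i 1) k) / 2 ≤
      (1 + 2 * c) * ∏ k, fk W c x k := by
  have hpos : ∀ s : Finset κ, 0 ≤ ∏ k ∈ s, fk W c x k := fun s =>
    Finset.prod_nonneg fun k _ => by linarith [fk_pos W c x k]
  by_cases hex : ∃ k j, i ∈ W k j
  · obtain ⟨k0, j0, hi⟩ := hex
    have hother : ∀ t : ℝ, ∏ k ∈ univ.erase k0, fk W c (update x i t) k =
        ∏ k ∈ univ.erase k0, fk W c x k := by
      intro t
      refine Finset.prod_congr rfl fun k hk => ?_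
      apply fk_update_none
      intro j
      apply prod_change hd hi
      intro h
      exact Finset.ne_of_mem_erase hk (congrArg Prod.fst h)
    have hQ : ∀ t : ℝ, ∑ j, hh c (ww (update x i t) (W k0 j)) =
        hh c (t * ∏ l ∈ (W k0 j0).erase i, x l) +
          ∑ j ∈ univ.erase j0, hh c (ww x (W k0 j)) := by
      intro t
      rw [← Finset.add_sum_erase univ _ (Finset.mem_univ j0), ww_update_mem hi]
      congr 1
      refine Finset.sum_congr rfl fun j hj => ?_
      rw [ww_update_not]
      apply prod_change hd hi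
      intro h
      exact Finset.ne_of_mem_erase hj (congrArg Prod.snd h)
    have hQ0 : ∑ j, hh c (ww x (W k0 j)) =
        hh c (1 / 2 * ∏ l ∈ (W k0 j0).erase i, x l) +
          ∑ j ∈ univ.erase j0, hh c (ww x (W k0 j)) := by
      rw [← Finset.add_sum_erase univ _ (Finset.mem_univ j0), ww_mem hi, hx]
    set ρ : ℝ := ∏ l ∈ (W k0 j0).erase i, x l with hρ
    have hρ0 : 0 ≤ ρ := Finset.prod_nonneg fun l _ => hx0 l
    have hk : (fk W c (update x i 0) k0 + fk W c (update x i 1) k0) / 2 ≤
        (1 + 2 * c) * fk W c x k0 := by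
      have h1 := hh_avg hc (w := 1 / 2 * ρ) (by positivity)
      have h2 := fk_pos W c x k0
      have h3 : fk W c (update x i 0) k0 = 3 / 4 + (hh c (0 * ρ) +
          ∑ j ∈ univ.erase j0, hh c (ww x (W k0 j))) := by unfold fk; rw [hQ]
      have h4 : fk W c (update x i 1) k0 = 3 / 4 + (hh c (1 * ρ) +
          ∑ j ∈ univ.erase j0, hh c (ww x (W k0 j))) := by unfold fk; rw [hQ]
      have h5 : fk W c x k0 = 3 / 4 + (hh c (1 / 2 * ρ) +
          ∑ j ∈ univ.erase j0, hh c (ww x (W k0 j))) := by unfold fk; rw [hQ0]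
      have h6 : 2 * (1 / 2 * ρ) = 1 * ρ := by ring
      have h7 : 0 * ρ = 0 := by ring
      rw [h6] at h1
      rw [h7] at h3
      have h8 : (fk W c (update x i 0) k0 + fk W c (update x i 1) k0) / 2 ≤
          fk W c x k0 + 3 / 2 * c := by
        rw [h3, h4, h5]
        linarith
      nlinarith
    rw [← Finset.mul_prod_erase univ (fk W c x) (Finset.mem_univ k0),
      ← Finset.mul_prod_erase univ (fk W c (update x i 0)) (Finset.mem_univ k0),
      ← Finset.mul_prod_erase univ (fk W c (update x i 1)) (Finset.mem_univ k0),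
      hother, hother]
    calc (fk W c (update x i 0) k0 * ∏ k ∈ univ.erase k0, fk W c x k +
          fk W c (update x i 1) k0 * ∏ k ∈ univ.erase k0, fk W c x k) / 2
        = (fk W c (update x i 0) k0 + fk W c (update x i 1) k0) / 2 *
            ∏ k ∈ univ.erase k0, fk W c x k := by ring
      _ ≤ ((1 + 2 * c) * fk W c x k0) * ∏ k ∈ univ.erase k0, fk W c x k :=
          mul_le_mul_of_nonneg_right hk (hpos _)
      _ = _ := by ring
  · push Not at hex
    have h : ∀ t : ℝ, ∏ k, fk W c (update x i t) k = ∏ k, fk W c x k := fun t =>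
      Finset.prod_congr rfl fun k _ => fk_update_none c k (hex k) t
    rw [h, h]
    have := hpos univ
    nlinarith

/-- the probability that fixed guesses are right -/
theorem Ex_pk {W : κ → J → Finset I}
    (hd : ∀ k j k' j', (k, j) ≠ (k', j') → Disjoint (W k j) (W k' j')) (v : κ → Bool)
    (S : Finset I) : ∀ b : I → Bool, Ex unif (fun a => ∏ k, pk W v (xr ∅ (mx S a b)) k) =
      ∏ k, pk W v (xr S b) k := by
  induction S using Finset.induction_on with
  | empty =>
    intro b
    have h : ∀ a : I → Bool, mx ∅ a b = b := by intro a; funext i; simp [mx]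
    simp only [h]
    exact Ex_const unif_sum _
  | insert i S hi ih =>
    intro b
    have hx : xr (insert i S) b i = 1 / 2 := by simp [xr]
    rw [Ex_split (Finset.mem_insert_self i S) b (fun y => ∏ k, pk W v (xr ∅ y) k),
      pk_avg hd v hx, Finset.erase_insert hi, ih, ih]
    have h1 := xr_update (S := insert i S) (i := i) b false
    have h2 := xr_update (S := insert i S) (i := i) b true
    rw [Finset.erase_insert hi] at h1 h2
    rw [h1, h2]
    simp

omit [Fintype I] [DecidableEq κ] in
open Classical in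
theorem ind_le (W : κ → J → Finset I) (v : κ → Bool) (y : I → Bool) :
    (if ∀ k, (v k = true ↔ HitF (W k) y) then (1 : ℝ) else 0) ≤ ∏ k, pk W v (xr ∅ y) k := by
  have hw0 : ∀ P : Finset I, 0 ≤ ww (xr ∅ y) P := ww_nonneg (xr_nonneg _ _)
  have hw1 : ∀ P : Finset I, ww (xr ∅ y) P ≤ 1 := ww_le_one (xr_nonneg _ _) (xr_le_one _ _)
  have hP : ∀ k, 0 ≤ ∏ j, (1 - ww (xr ∅ y) (W k j)) ∧ ∏ j, (1 - ww (xr ∅ y) (W k j)) ≤ 1 :=
    fun k => ⟨Finset.prod_nonneg fun j _ => by linarith [hw1 (W k j)],
      Finset.prod_le_one (fun j _ => by linarith [hw1 (W k j)]) fun j _ => by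
        linarith [hw0 (W k j)]⟩
  split_ifs with h
  · refine le_of_eq (Finset.prod_eq_one fun k _ => ?_).symm
    unfold pk
    by_cases hv : v k = true
    · rw [if_pos hv]
      obtain ⟨j, hj⟩ := (h k).1 hv
      have h1 : ww (xr ∅ y) (W k j) = 1 := by
        unfold ww xr
        refine Finset.prod_eq_one fun i hi => ?_
        simp [hj i hi]
      rw [Finset.prod_eq_zero (Finset.mem_univ j) (by rw [h1]; ring)]
      ring
    · rw [if_neg hv]
      refine Finset.prod_eq_one fun j _ => ?_
      have h1 : ¬ HitF (W k) y := fun h2 => hv ((h k).2 h2)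
      unfold HitF at h1
      push Not at h1
      obtain ⟨i, hi, hyi⟩ := h1 j
      have h2 : ww (xr ∅ y) (W k j) = 0 := by
        unfold ww
        refine Finset.prod_eq_zero hi ?_
        unfold xr
        simp [hyi]
      rw [h2]
      ring
  · refine Finset.prod_nonneg fun k _ => ?_
    unfold pk
    split_ifs
    · linarith [(hP k).2]
    · exact (hP k).1

open Classical in
theorem main_ind {m : ℕ} (hm : 1 ≤ m) (hJ : Fintype.card J = 2 ^ m) {W : κ → J → Finset I}
    (hd : ∀ k j k' j', (k, j) ≠ (k', j') → Disjoint (W k j) (W k' j')) :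
    ∀ (D : ℕ) (d : κ → ℕ), ∑ k, d k = D → ∀ (S : Finset I) (b : I → Bool)
      (g : κ → (I → Bool) → Bool), (∀ k, DTr (d k) (g k)) →
      Ex unif (fun a => if ∀ k, (g k (mx S a b) = true ↔ HitF (W k) (mx S a b)) then
        (1 : ℝ) else 0) ≤ (∏ k, fk W (1 / 2 ^ m) (xr S b) k) * (1 + 2 * (1 / 2 ^ m)) ^ D := by
  intro D
  set c : ℝ := 1 / 2 ^ m with hc
  have hc0 : 0 ≤ c := by positivity
  have hpos : ∀ x : I → ℝ, 0 ≤ ∏ k, fk W c x k := fun x =>
    Finset.prod_nonneg fun k _ => by linarith [fk_pos W c x k]
  induction D with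
  | zero =>
    intro d hD S b g hg
    have hd0 : ∀ k, d k = 0 := fun k => (Finset.sum_eq_zero_iff.1 hD) k (Finset.mem_univ k)
    have hv : ∀ k, ∃ v : Bool, ∀ y, g k y = v := by
      intro k
      have := hg k
      rw [hd0 k] at this
      exact this
    choose v hv using hv
    rw [pow_zero, mul_one]
    simp only [hv]
    refine (Ex_mono unif_nonneg fun a => ind_le W v (mx S a b)).trans ?_
    rw [Ex_pk hd v S b]
    refine Finset.prod_le_prod (fun k _ => ?_) fun k _ => ?_
    · unfold pk
      have hw1 : ∀ j, ww (xr S b) (W k j) ≤ 1 := fun j =>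
        ww_le_one (xr_nonneg _ _) (xr_le_one _ _) _
      have hw0 : ∀ j, 0 ≤ ww (xr S b) (W k j) := fun j => ww_nonneg (xr_nonneg _ _) _
      split_ifs
      · have := Finset.prod_le_one (s := univ) (f := fun j => 1 - ww (xr S b) (W k j))
          (fun j _ => by linarith [hw1 j]) fun j _ => by linarith [hw0 j]
        linarith
      · exact Finset.prod_nonneg fun j _ => by linarith [hw1 j]
    · have h := base_le hm hJ (w := fun j => ww (xr S b) (W k j))
        (fun j => ww_nonneg (xr_nonneg _ _) _)
        (fun j => ww_le_one (xr_nonneg _ _) (xr_le_one _ _) _)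
      unfold pk fk
      split_ifs
      · exact h.2
      · exact h.1
  | succ D ih =>
    intro d hD S b g hg
    obtain ⟨k0, hk0⟩ : ∃ k0, d k0 ≠ 0 := by
      by_contra hcon
      push Not at hcon
      rw [Finset.sum_eq_zero fun k _ => hcon k] at hD
      omega
    obtain ⟨e, he⟩ : ∃ e, d k0 = e + 1 := ⟨d k0 - 1, by omega⟩
    set d' : κ → ℕ := update d k0 e with hd'
    have hsum : ∑ k, d' k = D := by
      rw [← Finset.add_sum_erase univ _ (Finset.mem_univ k0)] at hD ⊢
      have h1 : ∑ k ∈ univ.erase k0, d' k = ∑ k ∈ univ.erase k0, d k := by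
        refine Finset.sum_congr rfl fun k hk => ?_
        rw [hd', update_of_ne (Finset.ne_of_mem_erase hk)]
      rw [h1, hd', update_self]
      omega
    have hpow : (0 : ℝ) ≤ (1 + 2 * c) ^ D := by positivity
    have hk := hg k0
    rw [he] at hk
    rcases hk with hk | ⟨i, hk⟩
    · have h1 := ih d' hsum S b g (fun k => by
        by_cases h : k = k0
        · subst h
          rw [hd', update_self]
          exact DTr.const hk
        · rw [hd', update_of_ne h]
          exact hg k)
      refine h1.trans ?_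
      rw [pow_succ]
      have h2 := mul_nonneg (hpos (xr S b)) hpow
      nlinarith
    · have hg' : ∀ t : Bool, ∀ k, DTr (d' k) (fun y => g k (update y i t)) := by
        intro t k
        by_cases h : k = k0
        · subst h
          rw [hd', update_self]
          exact hk t
        · rw [hd', update_of_ne h]
          exact DTr_update (hg k) i t
      by_cases hi : i ∈ S
      · rw [Ex_split hi b (fun y => if ∀ k, (g k y = true ↔ HitF (W k) y) then (1 : ℝ) else 0)]
        have hcase : ∀ t : Bool, Ex unif (fun a => if ∀ k, (g k (mx (S.erase i) a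
            (update b i t)) = true ↔ HitF (W k) (mx (S.erase i) a (update b i t))) then
            (1 : ℝ) else 0) ≤ (∏ k, fk W c (update (xr S b) i (if t = true then 1 else 0)) k) *
              (1 + 2 * c) ^ D := by
          intro t
          have h1 := ih d' hsum (S.erase i) (update b i t) (fun k y => g k (update y i t))
            (hg' t)
          rw [xr_update] at h1
          refine le_trans (le_of_eq ?_) h1
          congr 1
          funext a
          have h2 : update (mx (S.erase i) a (update b i t)) i t =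
              mx (S.erase i) a (update b i t) := by
            funext j
            by_cases hj : j = i
            · subst hj; simp [mx]
            · simp [hj]
          simp only [h2]
        have h0 := hcase false
        have h1 := hcase true
        simp only [Bool.false_eq_true, if_false, if_true] at h0 h1
        have hx : xr S b i = 1 / 2 := by simp [xr, hi]
        have h2 := fk_avg hd hc0 (xr_nonneg S b) hx
        calc _ ≤ ((∏ k, fk W c (update (xr S b) i 0) k) * (1 + 2 * c) ^ D +
              (∏ k, fk W c (update (xr S b) i 1) k) * (1 + 2 * c) ^ D) / 2 := by linarith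
          _ = ((∏ k, fk W c (update (xr S b) i 0) k) +
              ∏ k, fk W c (update (xr S b) i 1) k) / 2 * (1 + 2 * c) ^ D := by ring
          _ ≤ ((1 + 2 * c) * ∏ k, fk W c (xr S b) k) * (1 + 2 * c) ^ D :=
              mul_le_mul_of_nonneg_right h2 hpow
          _ = _ := by rw [pow_succ]; ring
      · have h1 := ih d' hsum S b (fun k y => g k (update y i (b i))) (hg' (b i))
        have h2 : ∀ a : I → Bool, update (mx S a b) i (b i) = mx S a b := by
          intro a
          funext j
          by_cases hj : j = i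
          · subst hj; simp [mx, hi]
          · simp [hj]
        simp only [h2] at h1
        refine h1.trans ?_
        rw [pow_succ]
        have h2 := mul_nonneg (hpos (xr S b)) hpow
        nlinarith

open Classical in
/-- The direct product theorem: decision trees of depth at most `2 ^ m / 16`. -/
theorem direct {m p : ℕ} (hm : 1 ≤ m) (hJ : Fintype.card J = 2 ^ m) (hp : 16 * p ≤ 2 ^ m)
    {W : κ → J → Finset I} (hW : ∀ k j, (W k j).card = m)
    (hd : ∀ k j k' j', (k, j) ≠ (k', j') → Disjoint (W k j) (W k' j'))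
    (g : κ → (I → Bool) → Bool) (hg : ∀ k, DTr p (g k)) :
    Ex unif (fun a : I → Bool => if ∀ k, (g k a = true ↔ HitF (W k) a) then (1 : ℝ) else 0) ≤
      (7 / 8) ^ Fintype.card κ := by
  have h := main_ind hm hJ hd _ (fun _ => p) rfl univ (fun _ => false) g hg
  have h1 : ∀ a : I → Bool, mx univ a (fun _ => false) = a := by intro a; funext i; simp [mx]
  simp only [h1] at h
  refine h.trans ?_
  have h2 : ∀ k j, ww (xr univ (fun _ => false)) (W k j) = 1 / 2 ^ m := by
    intro k j
    unfold ww xr
    simp [hW]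
  have h3 : ∀ k, fk W (1 / 2 ^ m) (xr univ (fun _ => false)) k = 3 / 4 := by
    intro k
    unfold fk
    simp only [h2]
    simp [hh]
  rw [Finset.prod_congr rfl fun k _ => h3 k, Finset.prod_const, Finset.card_univ,
    Finset.sum_const, Finset.card_univ, smul_eq_mul, mul_comm (Fintype.card κ) p, pow_mul,
    ← mul_pow]
  apply pow_le_pow_left₀ (by positivity)
  have hM : (0 : ℝ) < 2 ^ m := by positivity
  have hpr : 16 * (p : ℝ) ≤ 2 ^ m := by exact_mod_cast hp
  have h4 : (1 + 2 * (1 / 2 ^ m) : ℝ) ^ p ≤ Real.exp (1 / 8) := by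
    have h5 : (1 + 2 * (1 / 2 ^ m) : ℝ) ≤ Real.exp (2 * (1 / 2 ^ m)) := by
      have := Real.add_one_le_exp (2 * (1 / 2 ^ m) : ℝ)
      linarith
    calc (1 + 2 * (1 / 2 ^ m) : ℝ) ^ p ≤ (Real.exp (2 * (1 / 2 ^ m))) ^ p :=
          pow_le_pow_left₀ (by positivity) h5 p
      _ = Real.exp (p * (2 * (1 / 2 ^ m))) := by rw [← Real.exp_nat_mul]
      _ ≤ Real.exp (1 / 8) := by
          apply Real.exp_le_exp.2
          have : (p : ℝ) * (2 * (1 / 2 ^ m)) = 2 * p / 2 ^ m := by ring
          rw [this, div_le_div_iff₀ hM (by norm_num)]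
          linarith
  have h6 : Real.exp (1 / 8) ≤ 8 / 7 := by
    have h7 := Real.add_one_le_exp (-(1 / 8) : ℝ)
    rw [Real.exp_neg] at h7
    have h8 := Real.exp_pos (1 / 8 : ℝ)
    have h9 : (7 / 8 : ℝ) ≤ (Real.exp (1 / 8))⁻¹ := by linarith
    rw [le_inv_comm₀ (by norm_num) h8] at h9
    norm_num at h9 ⊢
    linarith
  calc (3 / 4 : ℝ) * (1 + 2 * (1 / 2 ^ m)) ^ p ≤ 3 / 4 * (8 / 7) :=
        mul_le_mul_of_nonneg_left (h4.trans h6) (by norm_num)
    _ ≤ 7 / 8 := by norm_num

end

end Pool.Agent.H274R3.Dp
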