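import Pool.Agent.H274R3.Dp.Main
import Pool.Agent.H274R3.Dp.Defs
import Pool.Agent.H274R3.ETH.Null

/-!
# The null side
-/

set_option autoImplicit false

namespace Pool.Agent.H274R3.Dp

open Pool.Agent.NPC Pool.Agent.H620R2.Gauge Pool.Agent.H622R2 Finset H568R2 Pool.Agent.H676 Filter
open Pool.Agent.H274R3.ETH

theorem DTr_or {I : Type} [Fintype I] [DecidableEq I] {q : ℕ} : ∀ {p : ℕ}
    {f g : (I → Bool) → Bool}, DTr p f → DTr q g → DTr (p + q) (fun y => f y || g y) := by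
  intro p
  induction p with
  | zero =>
    rintro f g ⟨c, hc⟩ hg
    simp only [hc, Nat.zero_add]
    exact hg.comp (fun b => c || b)
  | succ p ih =>
    intro f g hf hg
    rw [Nat.add_right_comm]
    rcases hf with ⟨c, hc⟩ | ⟨i, hi⟩
    · simp only [hc]
      exact (hg.comp (fun b => c || b)).mono (by omega)
    · exact Or.inr ⟨i, fun b => ih (hi b) (DTr_update hg i b)⟩

open Classical in
theorem DTr_exists {I : Type} [Fintype I] [DecidableEq I] {ι : Type} {p : ℕ}
    (f : ι → (I → Bool) → Bool) (hf : ∀ i, DTr p (f i)) (s : Finset ι) :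
    DTr (s.card * p) (fun y => decide (∃ i ∈ s, f i y = true)) := by
  induction s using Finset.induction_on with
  | empty =>
    refine DTr.const ⟨false, fun x => ?_⟩
    simp
  | insert i s hi ih =>
    rw [Finset.card_insert_of_notMem hi, Nat.add_mul, one_mul, Nat.add_comm]
    have h := DTr_or (hf i) ih
    have e : (fun y => decide (∃ j ∈ insert i s, f j y = true)) =
        fun y => (f i y || decide (∃ j ∈ s, f j y = true)) := by
      funext y
      rw [Bool.eq_iff_iff, Bool.or_eq_true, decide_eq_true_iff, decide_eq_true_iff]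
      constructor
      · rintro ⟨j, hj, hj2⟩
        rcases Finset.mem_insert.1 hj with hj3 | hj3
        · rw [hj3] at hj2
          exact Or.inl hj2
        · exact Or.inr ⟨j, hj3, hj2⟩
      · rintro (h0 | ⟨j, hj, h0⟩)
        · exact ⟨i, Finset.mem_insert_self _ _, h0⟩
        · exact ⟨j, Finset.mem_insert_of_mem hj, h0⟩
    rw [e]
    exact h

theorem length_of_mem_strsOf {c : ℕ} {w : List Bool} (h : w ∈ strsOf c) : w.length = c := by
  obtain ⟨i, _, rfl⟩ := Finset.mem_image.1 h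
  exact length_bitsOf c i

open Classical in
/-- brute force -/
noncomputable def brute (M : Alg) (g1 n N : ℕ) (h : List Bool) (k : Fin (2 ^ n))
    (a : Fin N → Bool) : Bool :=
  decide (∃ w ∈ strsOf g1, decide (M.out (orc N a)
    (pairBits w (pairBits h (bitsOf n k.val))) = some [true]) = true)

/-- The event: with some advice of length at most `c` the algorithm with `g1` nondeterministic
bits is right for all inputs of length `n`. -/
def EvG (M : Alg) (g1 g2 c n N : ℕ) (a : Fin N → Bool) : Prop :=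
  ∃ h : List Bool, h.length ≤ c ∧ ∀ k : Fin (2 ^ n), (brute M g1 n N h k a = true ↔
    HitF (fun j : Fin (2 ^ g2) => WF N g2 (bitsOf n k.val) j.val) a)

theorem brute_tree (M : Alg) {g1 c n N : ℕ} {h : List Bool} (hh : h.length ≤ c)
    (k : Fin (2 ^ n)) : DTr (2 ^ g1 * M.p.eval (2 * g1 + 2 * c + n + 2)) (brute M g1 n N h k) := by
  have h1 : ∀ w : {w : List Bool // w ∈ strsOf g1}, DTr (M.p.eval (2 * g1 + 2 * c + n + 2))
      (fun a : Fin N → Bool => decide (M.out (orc N a)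
        (pairBits w.1 (pairBits h (bitsOf n k.val))) = some [true])) := by
    intro w
    refine (dtr_out M N _).mono (eval_mono _ ?_)
    rw [length_pairBits, length_pairBits, length_bitsOf, length_of_mem_strsOf w.2]
    omega
  have h2 := DTr_exists (fun w : {w : List Bool // w ∈ strsOf g1} => fun a : Fin N → Bool =>
    decide (M.out (orc N a) (pairBits w.1 (pairBits h (bitsOf n k.val))) = some [true])) h1
    Finset.univ
  have e : (fun y : Fin N → Bool => decide (∃ i ∈ (Finset.univ : Finset {w : List Bool //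
      w ∈ strsOf g1}), decide (M.out (orc N y) (pairBits i.1 (pairBits h (bitsOf n k.val))) =
        some [true]) = true)) = brute M g1 n N h k := by
    funext y
    unfold brute
    rw [Bool.eq_iff_iff, decide_eq_true_iff, decide_eq_true_iff]
    constructor
    · rintro ⟨i, _, hi⟩
      exact ⟨i.1, i.2, hi⟩
    · rintro ⟨w, hw, h⟩
      exact ⟨⟨w, hw⟩, Finset.mem_univ _, h⟩
  rw [← e]
  refine DTr.mono ?_ (Nat.mul_le_mul_right _ (card_strsOf g1))
  have h3 : (Finset.univ : Finset {w : List Bool // w ∈ strsOf g1}).card = (strsOf g1).card := by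
    simp
  rw [← h3]
  convert h2

theorem ite_le_ite {p : Prop} (d1 d2 : Decidable p) : @ite ℝ p d1 1 0 ≤ @ite ℝ p d2 1 0 := by
  rw [Subsingleton.elim d1 d2]

open Classical in
theorem evG_bound (M : Alg) {g1 g2 c n N : ℕ} (hg : 1 ≤ g2)
    (hp : 16 * (2 ^ g1 * M.p.eval (2 * g1 + 2 * c + n + 2)) ≤ 2 ^ g2)
    (hN : 2 ^ (n + 2 * g2 + 1) ≤ N) :
    Ex unif (fun a : Fin N → Bool => if EvG M g1 g2 c n N a then (1 : ℝ) else 0) ≤
      2 ^ (c + 1) * (7 / 8 : ℝ) ^ 2 ^ n := by
  have hb : ∀ h : List Bool, h.length ≤ c → Ex unif (fun a : Fin N → Bool =>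
      if ∀ k : Fin (2 ^ n), (brute M g1 n N h k a = true ↔
        HitF (fun j : Fin (2 ^ g2) => WF N g2 (bitsOf n k.val) j.val) a) then (1 : ℝ) else 0) ≤
      (7 / 8 : ℝ) ^ 2 ^ n := by
    intro h hh
    have h1 := direct (I := Fin N) (κ := Fin (2 ^ n)) (J := Fin (2 ^ g2)) (m := g2) hg (by simp)
      hp (W := fun k j => WF N g2 (bitsOf n k.val) j.val) (fun k j =>
        WF_card (by rw [length_bitsOf]; exact hN) _) (by
        intro k j k' j' hne
        apply WF_disj
        · rw [length_bitsOf, length_bitsOf]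
        · exact j.2
        · exact j'.2
        · intro he
          apply hne
          rw [Prod.mk.injEq] at he ⊢
          exact ⟨Fin.ext (bitsOf_inj k.2 k'.2 he.1), Fin.ext he.2⟩)
      (fun k => brute M g1 n N h k) (fun k => brute_tree M hh k)
    rw [Fintype.card_fin] at h1
    exact le_trans (Ex_mono unif_nonneg fun a => ite_le_ite _ _) h1
  set P : Fin (2 ^ (c + 1)) → (Fin N → Bool) → Prop := fun i a => (str i.val).length ≤ c ∧
    ∀ k : Fin (2 ^ n), (brute M g1 n N (str i.val) k a = true ↔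
      HitF (fun j : Fin (2 ^ g2) => WF N g2 (bitsOf n k.val) j.val) a) with hP
  have h2 : ∀ i, Ex unif (fun a => if P i a then (1 : ℝ) else 0) ≤ (7 / 8 : ℝ) ^ 2 ^ n := by
    intro i
    by_cases hi : (str i.val).length ≤ c
    · refine le_trans (Ex_mono unif_nonneg fun a => ?_) (hb _ hi)
      by_cases hPa : P i a
      · rw [if_pos hPa]
        exact le_of_eq (if_pos hPa.2).symm
      · rw [if_neg hPa]
        split_ifs <;> norm_num
    · have h3 : ∀ a, (if P i a then (1 : ℝ) else 0) = 0 := fun a =>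
        if_neg fun h => hi h.1
      simp only [h3]
      rw [Ex_const unif_sum]
      positivity
  have h3 : Ex unif (fun a : Fin N → Bool => if EvG M g1 g2 c n N a then (1 : ℝ) else 0) ≤
      ∑ i : Fin (2 ^ (c + 1)), Ex unif (fun a => if P i a then (1 : ℝ) else 0) := by
    simp only [← Ex_sum]
    apply Ex_mono unif_nonneg
    intro a
    by_cases hE : EvG M g1 g2 c n N a
    · rw [if_pos hE]
      obtain ⟨h, hh, hk⟩ := hE
      have h4 := idx_lt h
      have h5 : 2 ^ (h.length + 1) ≤ 2 ^ (c + 1) := Nat.pow_le_pow_right (by norm_num) (by omega)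
      refine le_trans ?_ (Finset.single_le_sum (f := fun i : Fin (2 ^ (c + 1)) =>
        if P i a then (1 : ℝ) else 0) (fun i _ => by positivity)
        (Finset.mem_univ ⟨idx h, by omega⟩))
      rw [if_pos]
      simp only [hP, str_idx]
      exact ⟨hh, hk⟩
    · rw [if_neg hE]
      exact Finset.sum_nonneg fun c _ => by positivity
  refine h3.trans ((Finset.sum_le_sum fun i _ => h2 i).trans ?_)
  rw [Finset.sum_const, nsmul_eq_mul, Finset.card_univ, Fintype.card_fin]
  push_cast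
  exact le_rfl

/-- the parameters are good for `A` -/
def EasyG (g1 g2 : ℕ → ℕ) (θ : Par) : Set Oracle :=
  {A | ∃ h : ℕ → List Bool, (∀ n, (h n).length ≤ θ.p'.eval n) ∧ ∀ x : List Bool,
    (Sat (hitV A) (g2 x.length) x ↔ ∃ w : List Bool, w.length = g1 x.length ∧
      θ.M.out A (pairBits w (pairBits (h x.length) x)) = some [true])}

theorem evG_of_easy (g1 g2 : ℕ → ℕ) (θ : Par) (b : Polynomial ℕ) : ∃ Q : Polynomial ℕ,
    ∀ A ∈ EasyG g1 g2 θ, ∀ n N : ℕ, g1 n ≤ b.eval n → g2 n ≤ b.eval n →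
      2 ^ (Q.eval n + 1) ≤ N → EvG θ.M (g1 n) (g2 n) (θ.p'.eval n) n N (pre N A) := by
  obtain ⟨qb, hqb⟩ := Alg.out_local θ.M
  set Lp : Polynomial ℕ := 2 * b + 2 * θ.p' + Polynomial.X + 2 with hLp
  have hLe : ∀ n, Lp.eval n = 2 * b.eval n + 2 * θ.p'.eval n + n + 2 := by intro n; simp [hLp]
  refine ⟨qb.comp Lp + (Polynomial.X + 2 * b), ?_⟩
  rintro A ⟨h, hh, hx⟩ n N hb1 hb2 hN
  have hQ : (qb.comp Lp + (Polynomial.X + 2 * b)).eval n = qb.eval (Lp.eval n) +
      (n + 2 * b.eval n) := by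
    simp [Polynomial.eval_comp]
  rw [hQ] at hN
  refine ⟨h n, hh n, fun k => ?_⟩
  have hlen : (bitsOf n k.val).length = n := length_bitsOf _ _
  rw [hit_iff_sat (by
    rw [hlen]
    refine le_trans (Nat.pow_le_pow_right (by norm_num) ?_) hN
    omega)]
  have h1 := hx (bitsOf n k.val)
  rw [hlen] at h1
  rw [h1]
  unfold brute
  rw [decide_eq_true_iff]
  have h2 : ∀ w : List Bool, w.length = g1 n → θ.M.out (orc N (pre N A))
      (pairBits w (pairBits (h n) (bitsOf n k.val))) =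
      θ.M.out A (pairBits w (pairBits (h n) (bitsOf n k.val))) := by
    intro w hw
    obtain ⟨Q, _, hQl, hQA⟩ := hqb A (pairBits w (pairBits (h n) (bitsOf n k.val)))
    apply hQA
    intro q hq
    apply orc_pre
    have h3 := idx_lt q
    have h4 : q.length ≤ qb.eval (Lp.eval n) := (hQl q hq).trans (eval_mono _ (by
      rw [length_pairBits, length_pairBits, hlen, hw, hLe]
      have := hh n
      omega))
    have h5 : 2 ^ (q.length + 1) ≤ 2 ^ (qb.eval (Lp.eval n) + (n + 2 * b.eval n) + 1) :=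
      Nat.pow_le_pow_right (by norm_num) (by omega)
    omega
  constructor
  · rintro ⟨w, hw, hw2⟩
    have hwl := length_of_mem_strsOf hw
    rw [h2 w hwl, decide_eq_true_iff] at hw2
    exact ⟨w, hwl, hw2⟩
  · rintro ⟨w, hw, hw2⟩
    refine ⟨w, ?_, ?_⟩
    · rw [← hw]
      exact mem_strsOf w
    · rw [h2 w hw, decide_eq_true_iff]
      exact hw2

theorem poly_log (R : Polynomial ℕ) : ∃ c : ℕ, ∀ᶠ n : ℕ in atTop,
    16 * R.eval n ≤ 2 ^ (c * Nat.log 2 n) := by
  set D : ℕ := R.natDegree with hD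
  refine ⟨D + 1, ?_⟩
  filter_upwards [eventually_ge_atTop 1, eventually_ge_atTop (2 * (16 * R.eval 1 * 2 ^ D))]
    with n h1 h2
  set l : ℕ := 2 ^ Nat.log 2 n with hl
  have h3 : n < 2 * l := by
    have := Nat.lt_pow_succ_log_self (b := 2) (by norm_num) n
    rw [pow_succ] at this
    omega
  have h4 : R.eval n ≤ R.eval 1 * n ^ D := Y_poly_le R n h1
  calc 16 * R.eval n ≤ 16 * (R.eval 1 * (2 * l) ^ D) :=
        Nat.mul_le_mul_left _ (h4.trans (Nat.mul_le_mul_left _ (Nat.pow_le_pow_left h3.le D)))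
    _ = (16 * R.eval 1 * 2 ^ D) * l ^ D := by rw [mul_pow]; ring
    _ ≤ l * l ^ D := Nat.mul_le_mul_right _ (by omega)
    _ = 2 ^ ((D + 1) * Nat.log 2 n) := by
        rw [← pow_succ', hl, ← pow_mul]
        congr 1
        ring

theorem real_small {δ : ℝ} (hδ : 0 < δ) {n c : ℕ} {F : ℝ} (h1 : 64 * (c + 1) ≤ 2 ^ (n / 2))
    (h2 : 1 / δ ≤ 2 ^ ((2 : ℝ) ^ (n / 2) / 8)) (h3 : Real.sqrt n + 4 ≤ ((n / 2 : ℕ) : ℝ))
    (h4 : 10 ≤ n) (hF : F ≤ 2 ^ Real.sqrt n) :
    2 ^ (c + 1) * (7 / 8 : ℝ) ^ 2 ^ n * 2 ^ F ≤ δ := by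
  set T : ℕ := 2 ^ (n / 2) with hT
  have hTr : ((2 : ℝ) ^ (n / 2)) = T := by rw [hT]; push_cast; rfl
  have hT32 : 32 ≤ T := by
    calc 32 = 2 ^ 5 := by norm_num
      _ ≤ 2 ^ (n / 2) := Nat.pow_le_pow_right (by norm_num) (by omega)
  have h5 : (7 / 8 : ℝ) ^ 2 ^ n ≤ (1 / 16) ^ T := by
    have h6 : 32 * T ≤ 2 ^ n := by
      calc 32 * T ≤ T * T := Nat.mul_le_mul_right _ hT32
        _ ≤ 2 ^ n := by
          rw [hT, ← pow_add]
          exact Nat.pow_le_pow_right (by norm_num) (by omega)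
    calc (7 / 8 : ℝ) ^ 2 ^ n ≤ (7 / 8) ^ (32 * T) :=
          pow_le_pow_of_le_one (by norm_num) (by norm_num) h6
      _ = ((7 / 8) ^ 32) ^ T := by rw [pow_mul]
      _ ≤ (1 / 16) ^ T := pow_le_pow_left₀ (by positivity) (by norm_num) T
  have h6 : ((1 : ℝ) / 16) ^ T = 2 ^ (-(4 * (T : ℝ))) := by
    rw [Real.rpow_neg (by norm_num), show (4 * (T : ℝ)) = ((4 * T : ℕ) : ℝ) by push_cast; rfl,
      Real.rpow_natCast, pow_mul, one_div, inv_pow]
    norm_num
  have hF2 : F ≤ T / 16 := by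
    refine hF.trans ?_
    calc (2 : ℝ) ^ Real.sqrt n ≤ 2 ^ (((n / 2 : ℕ) : ℝ) - 4) :=
          Real.rpow_le_rpow_of_exponent_le (by norm_num) (by linarith)
      _ = T / 16 := by
          rw [Real.rpow_sub (by norm_num), Real.rpow_natCast, hTr]
          norm_num
  have hc : ((c : ℝ) + 1) ≤ T / 64 := by
    have : (64 : ℝ) * (c + 1) ≤ T := by exact_mod_cast h1
    linarith
  have hδ2 : (2 : ℝ) ^ (-((T : ℝ) / 8)) ≤ δ := by
    rw [hTr] at h2
    rw [Real.rpow_neg (by norm_num)]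
    have h7 : (0 : ℝ) < 2 ^ ((T : ℝ) / 8) := by positivity
    rw [inv_le_comm₀ h7 hδ, inv_eq_one_div]
    exact h2
  have h20 : (0 : ℝ) < 2 := by norm_num
  calc (2 : ℝ) ^ (c + 1) * (7 / 8 : ℝ) ^ 2 ^ n * 2 ^ F
      ≤ 2 ^ (c + 1) * 2 ^ (-(4 * (T : ℝ))) * 2 ^ F := by
        rw [← h6]
        gcongr
    _ = 2 ^ (((c : ℝ) + 1) + (-(4 * (T : ℝ))) + F) := by
        rw [Real.rpow_add h20, Real.rpow_add h20]
        congr 2
        rw [← Real.rpow_natCast]
        push_cast
        rfl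
    _ ≤ 2 ^ (-((T : ℝ) / 8)) := by
        apply Real.rpow_le_rpow_of_exponent_le (by norm_num)
        have : (0 : ℝ) ≤ T := Nat.cast_nonneg T
        linarith
    _ ≤ δ := hδ2

theorem null_pair (g1 g2 : ℕ → ℕ) (b : Polynomial ℕ) (hb : ∀ n, g2 n ≤ b.eval n)
    (hg : ∀ c : ℕ, ∀ᶠ n : ℕ in atTop, g1 n + c * Nat.log 2 n ≤ g2 n) {f : ℕ → ℝ} (hf : Cond f)
    (O : Set Oracle) (hO : ∀ A ∈ O, ∀ L, NPg A g2 L → NPgPoly A g1 L) : Null f O := by
  refine (null_iUnion (f := f) (EasyG g1 g2) fun θ => ?_).mono fun A hA => ?_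
  · intro δ hδ
    obtain ⟨Q, hQ⟩ := evG_of_easy g1 g2 θ b
    set R : Polynomial ℕ := θ.M.p.comp (2 * b + 2 * θ.p' + Polynomial.X + 2) with hR
    obtain ⟨c, hc⟩ := poly_log R
    obtain ⟨n, N, ⟨⟨⟨a1, a2, a3, a4⟩, a5⟩, a6⟩, hN, hfN⟩ :=
      V69_choose (Q + (Polynomial.X + 2 * b)) f hf _
        (((V69_ev θ.p' δ).and hc).and (hg (c + 1)))
    have hQe : (Q + (Polynomial.X + 2 * b)).eval n = Q.eval n + (n + 2 * b.eval n) := by simp
    rw [hQe] at hN
    have hb2 := hb n
    have hlog : 1 ≤ Nat.log 2 n := Nat.log_pos (by norm_num) (by omega)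
    have hg12 : g1 n ≤ g2 n := by omega
    have hg2 : 1 ≤ g2 n := by nlinarith
    have hb1 : g1 n ≤ b.eval n := hg12.trans hb2
    have hN1 : 2 ^ (Q.eval n + 1) ≤ N :=
      le_trans (Nat.pow_le_pow_right (by norm_num) (by omega)) hN
    have hN2 : 2 ^ (n + 2 * g2 n + 1) ≤ N :=
      le_trans (Nat.pow_le_pow_right (by norm_num) (by omega)) hN
    refine cover_of_event (EvG θ.M (g1 n) (g2 n) (θ.p'.eval n) n N) (EasyG g1 g2 θ)
      (fun A hA => hQ A hA n N hb1 hb2 hN1) f δ ?_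
    have hp : 16 * (2 ^ g1 n * θ.M.p.eval (2 * g1 n + 2 * θ.p'.eval n + n + 2)) ≤ 2 ^ g2 n := by
      have h1 : θ.M.p.eval (2 * g1 n + 2 * θ.p'.eval n + n + 2) ≤ R.eval n := by
        rw [hR, Polynomial.eval_comp]
        apply eval_mono
        simp
        omega
      calc 16 * (2 ^ g1 n * θ.M.p.eval (2 * g1 n + 2 * θ.p'.eval n + n + 2))
          ≤ 16 * (2 ^ g1 n * R.eval n) := by gcongr
        _ = 2 ^ g1 n * (16 * R.eval n) := by ring
        _ ≤ 2 ^ g1 n * 2 ^ (c * Nat.log 2 n) := Nat.mul_le_mul_left _ a5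
        _ = 2 ^ (g1 n + c * Nat.log 2 n) := by rw [← pow_add]
        _ ≤ 2 ^ g2 n := Nat.pow_le_pow_right (by norm_num) (by nlinarith)
    have hev := evG_bound θ.M hg2 hp hN2
    refine (mul_le_mul_of_nonneg_right hev (by positivity)).trans ?_
    exact real_small hδ a1 a2 a3 a4 hfN
  · obtain ⟨V, h, b', ⟨M, hM⟩, hh, hx⟩ := hO A hA {x | Sat (hitV A) (g2 x.length) x}
      ⟨hitV A, isFP_hitV A, fun x => Iff.rfl⟩
    refine Set.mem_iUnion.2 ⟨⟨M, 0, 0, b'⟩, h, hh, fun x => (hx x).trans ?_⟩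
    refine exists_congr fun w => and_congr_right fun _ => ?_
    rw [hM, Option.some.injEq]

end Pool.Agent.H274R3.Dp
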